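import Mathlib

set_option autoImplicit false
open Set Cardinal

namespace Pool.Agent.Pol

/-- there is a normal function `d : [λ⁺]² → ω` (`|{b < a : d(b,a) ≤ n}| ≤ ν_n < λ`) with
`d(a,b) ≤ max (d(a,c)) (d(b,c))` for `a < b < c`; here `λ⁺` is the well-ordered type
`(Order.succ lam).ord.ToType`. It exists under `□_λ` when `cf λ = ω`. -/
def CoherentNormal (lam : Cardinal.{0}) : Prop :=
  ∃ (d : (Order.succ lam).ord.ToType → (Order.succ lam).ord.ToType → ℕ) (ν : ℕ → Cardinal.{0}),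
    (∀ n, ν n < lam) ∧
    (∀ a n, #{b | b < a ∧ d b a ≤ n} ≤ ν n) ∧
    (∀ a b c, a < b → b < c → d a b ≤ max (d a c) (d b c))

end Pool.Agent.Pol
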