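import Pool.Agent.H0.Pol.Main
import Pool.Agent.H0.Pol.Defs2

set_option autoImplicit false
open Set Cardinal

namespace Pool.Agent.Pol

open Pool.Agent.Idl

theorem core2 {κ : Cardinal.{0}} (hκ : ℵ₀ < κ) (h2 : 2 ^ κ = Order.succ κ) (hd : CoherentNormal κ) :
    ∃ S : W κ → Set (W κ),
      (∀ T : Set (W κ), #T = κ → ∃ w, ∀ a, w < a → (S a ∩ T).Nonempty) ∧
      (∀ A : Set (W κ), #A = Cardinal.aleph 1 → #({x | ∀ a ∈ A, x ∈ S a} : Set (W κ)) < κ) := by
  classical
  obtain ⟨d, ν, hν, hnorm, hcoh⟩ := hd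
  have hWne : Nonempty (W κ) := by
    rw [← mk_ne_zero_iff, mk_W]
    exact (bot_lt_iff_ne_bot.1 ((aleph0_pos.trans hκ).trans (Order.lt_succ κ)))
  -- list of all subsets of size κ
  have hB : ∃ B : W κ → Set (W κ), ∀ T : Set (W κ), #T = κ → ∃ b, B b = T := by
    have h1 : #{T : Set (W κ) | #T = κ} ≤ #(W κ) := by
      have h3 : #{T : Set (W κ) | #T = κ} ≤ #(L κ → W κ) := by
        have h4 : ∀ T : {T : Set (W κ) | #T = κ}, ∃ f : L κ → W κ, range f = T.1 := by
          rintro ⟨T, hT⟩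
          have h5 : #(L κ) = #T := by rw [mk_L]; exact hT.symm
          obtain ⟨φ⟩ := Cardinal.eq.1 h5
          refine ⟨fun x => (φ x : W κ), ?_⟩
          ext y
          constructor
          · rintro ⟨x, rfl⟩; exact (φ x).2
          · intro hy; exact ⟨φ.symm ⟨y, hy⟩, by simp⟩
        choose f hf using h4
        refine mk_le_of_injective (f := f) ?_
        intro T T' h
        apply Subtype.ext
        rw [← hf T, ← hf T', h]
      refine h3.trans ?_
      rw [mk_arrow]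
      simp only [lift_id]
      rw [mk_W, mk_L, ← h2, ← power_mul, mul_eq_self hκ.le]
    have hne : Nonempty {T : Set (W κ) | #T = κ} ∨ ¬ Nonempty {T : Set (W κ) | #T = κ} := em _
    rcases hne with hne | hne
    · obtain ⟨g⟩ := h1
      refine ⟨fun b => (Function.invFun g b).1, fun T hT => ⟨g ⟨T, hT⟩, ?_⟩⟩
      change (Function.invFun g (g ⟨T, hT⟩)).1 = T
      rw [Function.leftInverse_invFun g.injective]
    · exact ⟨fun _ => univ, fun T hT => absurd ⟨⟨T, hT⟩⟩ hne⟩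
  obtain ⟨B, hBs⟩ := hB
  let B' : W κ → Set (W κ) := fun b => if #(B b) = κ then B b else univ
  have hB' : ∀ b, κ ≤ #(B' b) := by
    intro b
    by_cases hb : #(B b) = κ
    · simp only [B', if_pos hb]; exact hb.ge
    · simp only [B', if_neg hb]; rw [mk_univ, mk_W]; exact (Order.lt_succ κ).le
  let F : (a : W κ) → (∀ b, b < a → W κ → W κ) → W κ → Set (W κ) := fun a ih b =>
    {x | ∃ b', ∃ hb' : b' < a, ∃ c', c' < b' ∧ d b' a ≤ d b a ∧ d c' b' ≤ d b a ∧ x = ih b' hb' c'}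
  have hF : ∀ a ih b, #(F a ih b) < κ := by
    intro a ih b
    have h1 : F a ih b ⊆ ⋃ b' : {b' | b' < a ∧ d b' a ≤ d b a},
        (fun c' => ih b'.1 b'.2.1 c') '' {c' | c' < b'.1 ∧ d c' b'.1 ≤ d b a} := by
      rintro x ⟨b', hb', c', h1, h2, h3, rfl⟩
      exact mem_iUnion.2 ⟨⟨b', hb', h2⟩, c', ⟨h1, h3⟩, rfl⟩
    refine (mk_le_mk_of_subset h1).trans_lt ?_
    refine (mk_iUnion_le _).trans_lt ?_
    have h3 : (⨆ b' : {b' | b' < a ∧ d b' a ≤ d b a},
        #((fun c' => ih b'.1 b'.2.1 c') '' {c' | c' < b'.1 ∧ d c' b'.1 ≤ d b a} : Set (W κ))) ≤ ν (d b a) :=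
      ciSup_le' fun b' => mk_image_le.trans (hnorm _ _)
    refine (mul_le_mul' (hnorm a (d b a)) h3).trans_lt ?_
    exact mul_lt_of_lt hκ.le (hν _) (hν _)
  have hpick : ∀ a ih b, ∃ x, x ∈ B' b ∧ x ∉ F a ih b := by
    intro a ih b
    by_contra hcon
    push Not at hcon
    have h1 : #(B' b) ≤ #(F a ih b) := mk_le_mk_of_subset hcon
    exact absurd (hF a ih b) (not_lt.2 ((hB' b).trans h1))
  choose pk hpk1 hpk2 using hpick
  let p : W κ → W κ → W κ := (wellFounded_lt (α := W κ)).fix pk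
  have hp : ∀ a, p a = pk a (fun b _ => p b) := fun a => WellFounded.fix_eq _ _ _
  have hp1 : ∀ a b, p a b ∈ B' b := by
    intro a b
    rw [hp a]
    exact hpk1 a _ b
  have hp2 : ∀ a b b' c', b' < a → c' < b' → d b' a ≤ d b a → d c' b' ≤ d b a → p a b ≠ p b' c' := by
    intro a b b' c' h1 h2 h3 h4 h5
    have h6 := hpk2 a (fun b _ => p b) b
    rw [← hp a] at h6
    exact h6 ⟨b', h1, c', h2, h3, h4, h5⟩
  refine ⟨fun a => {x | ∃ b, b < a ∧ x = p a b}, ?_, ?_⟩
  · intro T hT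
    obtain ⟨w, hw⟩ := hBs T hT
    refine ⟨w, fun a ha => ⟨p a w, ⟨w, ha, rfl⟩, ?_⟩⟩
    have h1 := hp1 a w
    simp only [B', hw, if_pos hT] at h1
    exact h1
  · intro A hA
    have hA1 : #A ≤ κ := by
      rw [hA, ← Cardinal.succ_aleph0]
      exact Order.succ_le_of_lt hκ
    obtain ⟨γ, hγ⟩ := exists_bd hκ.le hA1
    have hinf : ∃ n, (A ∩ {b | d b γ ≤ n}).Infinite := by
      by_contra hcon
      push Not at hcon
      have h1 : A = ⋃ n : ℕ, A ∩ {b | d b γ ≤ n} := by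
        ext x
        simp only [mem_iUnion, mem_inter_iff, exists_and_left]
        exact ⟨fun h => ⟨h, d x γ, le_refl (d x γ)⟩, fun h => h.1⟩
      have h2 : A.Countable := by
        rw [h1]
        exact countable_iUnion fun n => (Set.not_infinite.1 (by simpa using hcon n)).countable
      have h3 : #A ≤ ℵ₀ := (Cardinal.le_aleph0_iff_set_countable).2 h2
      rw [hA] at h3
      exact absurd h3 (not_le.2 Cardinal.aleph0_lt_aleph_one)
    obtain ⟨M, hM⟩ := hinf
    obtain ⟨φ, hφ1, hφ2⟩ := exists_incr (fun k => (hM.natEmbedding _ k).1)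
      (fun x y h => (hM.natEmbedding _).injective (Subtype.ext h))
    let h : ℕ → W κ := fun k => (hM.natEmbedding _ (φ k)).1
    have hmem : ∀ k, h k ∈ A ∩ {b | d b γ ≤ M} := fun k => (hM.natEmbedding _ (φ k)).2
    have hmono : StrictMono h := hφ2
    have hh : ∀ l k, l < k → d (h l) (h k) ≤ M := by
      intro l k hlk
      refine (hcoh _ _ γ (hmono hlk) (hγ _ (hmem k).1)).trans ?_
      exact max_le (hmem l).2 (hmem k).2
    have hsub : ({x | ∀ a ∈ A, x ∈ {x | ∃ b, b < a ∧ x = p a b}} : Set (W κ)) ⊆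
        ⋃ k, (fun b => p (h k) b) '' {b | b < h k ∧ d b (h k) ≤ M} := by
      intro x hx
      have hx' : ∀ k, ∃ b, b < h k ∧ x = p (h k) b := fun k => hx (h k) (hmem k).1
      choose c hc1 hc2 using hx'
      by_contra hcon
      rw [mem_iUnion] at hcon
      push Not at hcon
      have hge : ∀ k, M < d (c k) (h k) := by
        intro k
        by_contra hlt
        exact hcon k ⟨c k, ⟨hc1 k, not_lt.1 hlt⟩, (hc2 k).symm⟩
      have hdec : ∀ l k, l < k → d (c k) (h k) < d (c l) (h l) := by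
        intro l k hlk
        by_contra hnot
        have hle := not_lt.1 hnot
        refine hp2 (h k) (c k) (h l) (c l) (hmono hlk) (hc1 l) ((hh l k hlk).trans (hge k).le) hle ?_
        rw [← hc2 k, ← hc2 l]
      have hbd : ∀ k, d (c k) (h k) + k ≤ d (c 0) (h 0) := by
        intro k
        induction k with
        | zero => simp
        | succ k ih =>
          have := hdec k (k + 1) (Nat.lt_succ_self k)
          omega
      have := hbd (d (c 0) (h 0) + 1)
      omega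
    refine (mk_le_mk_of_subset hsub).trans_lt ?_
    refine (mk_iUnion_le _).trans_lt ?_
    have h3 : (⨆ k : ℕ, #((fun b => p (h k) b) '' {b | b < h k ∧ d b (h k) ≤ M} : Set (W κ))) ≤ ν M :=
      ciSup_le' fun k => mk_image_le.trans (hnorm _ _)
    refine (mul_le_mul' le_rfl h3).trans_lt ?_
    exact mul_lt_of_lt hκ.le (by simpa using hκ) (hν M)

theorem main2 {l : Cardinal.{0}} (hκ : ℵ₀ < l) (h2 : 2 ^ l = Order.succ l) (hd : CoherentNormal l)
    (α : Type) (hα : #α = Order.succ l) :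
    ∃ S : α → Set α,
      (∀ H₁ H₂ : Set α, #H₁ = Order.succ l → #H₂ = l → ∃ a ∈ H₁, ∃ x ∈ H₂, x ∈ S a) ∧
      (∀ H₁ H₂ : Set α, #H₁ = Cardinal.aleph 1 → #H₂ = l → ∃ a ∈ H₁, ∃ x ∈ H₂, x ∉ S a) := by
  obtain ⟨S, hS1, hS2⟩ := core2 hκ h2 hd
  have h1 : #α = #(W l) := by rw [hα, mk_W]
  obtain ⟨e⟩ := Cardinal.eq.1 h1
  refine ⟨fun a => e ⁻¹' (S (e a)), ?_, ?_⟩
  · intro H₁ H₂ hH1 hH2
    obtain ⟨w, hw⟩ := hS1 (e '' H₂) (by rw [mk_image_eq e.injective, hH2])
    have hex : ∃ a ∈ H₁, w < e a := by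
      by_contra hcon
      push Not at hcon
      have h3 : e '' H₁ ⊆ Iic w := by
        rintro _ ⟨a, ha, rfl⟩
        exact hcon a ha
      have h4 := mk_le_mk_of_subset h3
      rw [mk_image_eq e.injective, hH1] at h4
      exact absurd (h4.trans (mk_Iic_le hκ.le w)) (not_le.2 (Order.lt_succ l))
    obtain ⟨a, ha, haw⟩ := hex
    obtain ⟨y, hy1, x, hx, rfl⟩ := hw _ haw
    exact ⟨a, ha, x, hx, hy1⟩
  · intro H₁ H₂ hH1 hH2
    by_contra hcon
    push Not at hcon
    have h3 := hS2 (e '' H₁) (by rw [mk_image_eq e.injective, hH1])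
    have h4 : e '' H₂ ⊆ {x | ∀ a ∈ e '' H₁, x ∈ S a} := by
      rintro _ ⟨x, hx, rfl⟩ _ ⟨a, ha, rfl⟩
      exact hcon a ha x hx
    have h5 := mk_le_mk_of_subset h4
    rw [mk_image_eq e.injective, hH2] at h5
    exact absurd h3 (not_lt.2 h5)

end Pool.Agent.Pol
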